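import Pool.Agent.MP_8be872_ag.H63.LocA

/-! Abstract steps for the acyclicity of high powers of an ideal. -/

namespace Pool.Agent.MP_8be872_ag.H11

open Finset H38 H56 H63 MvPolynomial

section Ws

variable {E O : Type} [Fintype E] [Fintype O] {a : E ⊕ O → ℤ} {μ : E ⊕ O → ℕ}

theorem ex_pos (h : 0 < ws a μ) : ∃ g, μ g ≠ 0 ∧ 0 < a g := by
  by_contra n
  refine absurd h (not_lt.2 (sum_nonpos fun g _ => ?_))
  by_cases e : μ g = 0
  · simp [e]
  · exact nsmul_nonpos (not_lt.1 fun b => n ⟨g, e, b⟩) _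

theorem ex_neg (h : ws a μ < 0) : ∃ g, μ g ≠ 0 ∧ a g < 0 := by
  by_contra n
  refine absurd h (not_lt.2 (sum_nonneg fun g _ => ?_))
  by_cases e : μ g = 0
  · simp [e]
  · exact nsmul_nonneg (not_lt.1 fun b => n ⟨g, e, b⟩) _

theorem ex_nonpos {b : E ⊕ O → ℤ} (hb : 0 < ws b μ) (h : ws a μ ≤ 0) :
    ∃ g, μ g ≠ 0 ∧ a g ≤ 0 := by
  by_contra n
  obtain ⟨g, hg, -⟩ := ex_pos hb
  refine absurd h (not_le.2 (sum_pos' (fun g _ => ?_) ⟨g, mem_univ _, ?_⟩))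
  · by_cases e : μ g = 0
    · simp [e]
    · exact nsmul_nonneg (not_le.1 fun b => n ⟨g, e, b⟩).le _
  · exact nsmul_pos (not_le.1 fun b => n ⟨g, hg, b⟩) hg

theorem one_le_ws {gr : E ⊕ O → ℕ} {g : E ⊕ O} (h : μ g ≠ 0) (h1 : gr g = 1) : 1 ≤ ws gr μ :=
  le_trans (by rw [h1, smul_eq_mul, mul_one]; exact Nat.one_le_iff_ne_zero.2 h)
    (single_le_sum (f := fun g => μ g • gr g) (fun _ _ => Nat.zero_le _) (mem_univ g))

variable [DecidableEq E] [DecidableEq O]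

/-- Multiplication operators in the generators satisfying `A`. -/
noncomputable def wA (A : E ⊕ O → Prop) : Subalgebra ℂ (Module.End ℂ (Sp E O)) where
  carrier := {m | m ∈ words (sup A)}
  mul_mem' h h' := mul_mem_words (P := sup A) (P' := sup A) (P'' := sup A) h h'
    fun _ _ a b => sup_add.2 ⟨a, b⟩
  add_mem' h h' := Submodule.add_mem (words (sup A)) h h'
  algebraMap_mem' r := by
    rw [Algebra.algebraMap_eq_smul_one]
    exact Submodule.smul_mem (words (sup A)) r (one_mem_words fun _ h => absurd rfl h)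

theorem sum_proj {gr : E ⊕ O → ℕ} (h0 : ∀ e, gr (.inl e) = 0) (h1 : ∀ g, gr g ≤ 1) (x : Sp E O) :
    x - ∑ k ∈ range (Fintype.card O + 1), proj (fun μ => ws gr μ = k) x = 0 := by
  classical
  rw [sub_eq_zero]
  funext S
  ext m
  simp only [Finset.sum_apply, coeff_sum, coeff_proj, sum_ite_eq]
  by_cases e : coeff m (x S) = 0
  · simp [e]
  · rw [if_pos]
    refine mem_range.2 (Nat.lt_succ_of_le (le_trans ?_ (mem_mono.1 (mono_odd_le x) S m e)))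
    rw [ws, Fintype.sum_sum_type]
    simp only [h0, smul_zero, sum_const_zero, zero_add]
    exact sum_le_sum fun o _ => by
      rw [smul_eq_mul]
      exact mul_le_of_le_one_right' (h1 _)

theorem proj_of_eq {gr : E ⊕ O → ℕ} {j : ℕ} {y : Sp E O} (hy : y ∈ mono fun μ => ws gr μ = j)
    (i : ℕ) : proj (fun μ => ws gr μ = i) y = if i = j then y else 0 := by
  split_ifs with e
  · subst e
    exact proj_eq_self (P := fun μ => ws gr μ = i) hy
  · exact proj_eq_zero (mono_le (fun μ a b => by omega) hy)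

theorem proj_of_lt {gr : E ⊕ O → ℕ} {i j : ℕ} {y : Sp E O} (hy : y ∈ mono fun μ => j < ws gr μ)
    (h : i ≤ j) : proj (fun μ => ws gr μ = i) y = 0 :=
  proj_eq_zero (mono_le (fun μ a b => by omega) hy)

end Ws

variable {E O J Γ : Type} [Fintype E] [Fintype O] [Fintype J] [DecidableEq E] [DecidableEq O]
  [DecidableEq J] [AddCommGroup Γ] {Al : Gn E O J → Prop} {c : Gn E O J → Γ}
  {δ δ₀ : Gn E O J → Op E O J} {ω : Op E O J} {f : J → MvPolynomial (E ⊕ J) ℂ}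
  {N K Pp : Gn E O J → Prop}

/-- The differential does not lower the number of factors from `Pp` modulo `N`. -/
theorem stabR (h : Good Al c δ ω f) (hN : ∀ g, N g → Al g ∧ δ g ∈ words (has N))
    (hP : ∀ g, Pp g → Al g ∧ δ g ∈ words fun μ => has N μ ∨ has Pp μ) (k : ℕ)
    {x : Sp (E ⊕ J) (O ⊕ J)} (hx : x ∈ mono fun μ => has N μ ∨ k ≤ cnt Pp μ) :
    Dloc δ ω f ∅ x ∈ mono fun μ => has N μ ∨ k ≤ cnt Pp μ := by
  classical
  refine h.Dloc_mem ∅ (Pg := fun g ν => (N g → has N ν) ∧ (Pp g → has N ν ∨ has Pp ν)) hx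
    (fun g => ?_) h.ow (fun g μ ν a b => ?_) (fun a b _ h2 => ?_) fun j hj => absurd hj (by simp)
  · by_cases a : Al g
    · have e : dl δ f g = δ g := by
        rcases g with (e | j) | o
        exacts [rfl, absurd a (h.alT j), rfl]
      rw [e]
      refine words_and ?_ ?_
      · by_cases b : N g
        · exact words_le (fun _ u _ => u) (hN g b).2
        · exact words_le (fun _ _ u => absurd u b) (h.dw g)
      · by_cases b : Pp g
        · exact words_le (fun _ u _ => u) (hP g b).2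
        · exact words_le (fun _ _ u => absurd u b) (h.dw g)
    · exact words_le (fun _ _ => ⟨fun u => absurd (hN g u).1 a, fun u => absurd (hP g u).1 a⟩)
        (h.dl_odd g)
  · rcases a with a | a
    · exact .inl (has_add.2 ((has_add.1 a).symm.imp_left fun e => b.1 (has_single.1 e)))
    · rw [cnt_add, cnt_single] at a
      rw [cnt_add]
      split_ifs at a with e
      · refine (b.2 e).imp (fun u => has_add.2 (.inl u)) fun u => ?_
        have := cnt_ne_zero.2 u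
        omega
      · exact .inr (by omega)
  · refine h2.imp (fun u => has_add.2 (.inr u)) fun u => ?_
    rw [cnt_add]
    omega

theorem kill_stab (h : Good Al c δ ω f) (hN : ∀ g, N g → Al g ∧ δ g ∈ words (has N))
    {x : Sp (E ⊕ J) (O ⊕ J)} (hx : x ∈ rel f ⊔ mono (has N)) :
    Dloc δ ω f ∅ x ∈ rel f ⊔ mono (has N) := by
  obtain ⟨a, ha, b, hb, rfl⟩ := Submodule.mem_sup.1 hx
  rw [map_add]
  exact Submodule.add_mem_sup (h.Dloc_rel ∅ ha)
    (h.Dloc_has ∅ (fun g u => (hN g u).1) (fun g u => (hN g u).2) hb)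

theorem stabZ (h : Good Al c δ ω f) (hN : ∀ g, N g → Al g ∧ δ g ∈ words (has N))
    (hP : ∀ g, Pp g → Al g ∧ δ g ∈ words fun μ => has N μ ∨ has Pp μ) (k : ℕ) (j₀ : J) (γ : Γ)
    (p : Bool) {x : Sp (E ⊕ J) (O ⊕ J)}
    (hx : x ∈ ZZ Al c {j₀} ∅ γ (!p) ⊓ mono fun μ => has N μ ∨ k ≤ cnt Pp μ) :
    Dloc δ ω f ∅ x ∈ ZZ Al c {j₀} ∅ γ p ⊓ mono fun μ => has N μ ∨ k ≤ cnt Pp μ :=
  ⟨Bool.not_not p ▸ h.Dloc_ZZ (empty_subset _) hx.1, stabR h hN hP k hx.2⟩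

/-- Combining the two acyclic pieces. -/
theorem acy_two (h : Good Al c δ ω f) (hN : ∀ g, N g → Al g ∧ δ g ∈ words (has N))
    (hP : ∀ g, Pp g → Al g ∧ δ g ∈ words fun μ => has N μ ∨ has Pp μ)
    (hK : ∀ g, K g → Al g ∧ δ g ∈ words (has K)) (hNK : ∀ g, N g → K g) (k : ℕ) (j₀ : J) (γ : Γ)
    (h1 : Acy (Dloc δ ω f ∅) (fun p => ZZ Al c {j₀} ∅ γ p ⊓
      (mono (fun μ => k ≤ cnt Pp μ) ⊔ mono (has N)) ⊓ (rel f ⊔ mono (has K)))
      (rel f ⊔ mono (has N)))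
    (h2 : Acy (Dloc δ ω f ∅) (fun p => ZZ Al c {j₀} ∅ γ p ⊓
      mono fun μ => has K μ ∨ k ≤ cnt Pp μ) (rel f ⊔ mono (has K))) :
    Acy (Dloc δ ω f ∅) (fun p => ZZ Al c {j₀} ∅ γ p ⊓
      mono fun μ => has N μ ∨ k ≤ cnt Pp μ) (rel f ⊔ mono (has N)) := by
  intro p x hx hd
  have l1 : ∀ μ : Gn E O J → ℕ, has N μ → has K μ := fun μ ⟨g, a, b⟩ => ⟨g, hNK g a, b⟩
  have l2 : rel f ⊔ mono (has N) ≤ rel f ⊔ mono (has K) := sup_le_sup_left (mono_le l1) _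
  have l3 : (mono (fun μ => k ≤ cnt Pp μ) ⊔ mono (has N) : Submodule ℂ (Sp (E ⊕ J) (O ⊕ J))) =
      mono fun μ => has N μ ∨ k ≤ cnt Pp μ := by rw [mono_or, sup_comm]
  obtain ⟨y, hy, a⟩ := h2 p x ⟨hx.1, mono_le (fun μ u => u.imp_left (l1 μ)) hx.2⟩ (l2 hd)
  have b1 : proj (fun μ => k ≤ cnt Pp μ) y ∈
      ZZ Al c {j₀} ∅ γ (!p) ⊓ mono fun μ => has N μ ∨ k ≤ cnt Pp μ :=
    ⟨proj_mem_of hy.1, mono_le (fun _ => .inr) (proj_mem y)⟩
  have b2 : y - proj (fun μ => k ≤ cnt Pp μ) y ∈ mono (has K) := by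
    refine mono_le (P := fun μ => (has K μ ∨ k ≤ cnt Pp μ) ∧ ¬ k ≤ cnt Pp μ)
      (fun _ u => u.1.resolve_right u.2) ?_
    rw [mono_and]
    exact ⟨sub_mem hy.2 (proj_mem_of hy.2), sub_proj_mem y⟩
  generalize proj (fun μ => k ≤ cnt Pp μ) y = y' at b1 b2
  have b3 := kill_stab h hK (Submodule.mem_sup_right b2)
  have b4 := sub_mem hx (stabZ h hN hP k j₀ γ p b1)
  obtain ⟨z, hz, e⟩ := h1 p (x - Dloc δ ω f ∅ y') ⟨⟨b4.1, l3 ▸ b4.2⟩,
    TL.of_eq (add_mem a b3) (by rw [map_sub]; abel)⟩ (by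
      rw [map_sub, ← Module.End.mul_apply, h.Dloc_sq, LinearMap.zero_apply, sub_zero]
      exact hd)
  exact ⟨y' + z, add_mem b1 ⟨hz.1.1, l3 ▸ hz.1.2⟩, TL.of_eq e (by rw [map_add]; abel)⟩

/-- Passing from the leading part of the differential to the differential. -/
theorem acy_lead (h : Good Al c δ ω f) (h₀ : Good Al c δ₀ 0 f)
    (hN : ∀ g, N g → Al g ∧ δ g ∈ words (has N))
    (hP : ∀ g, Pp g → Al g ∧ δ g ∈ words fun μ => has N μ ∨ has Pp μ)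
    (hN₀ : ∀ g, N g → Al g ∧ δ₀ g ∈ words (has N)) {gr : Gn E O J → ℕ}
    (h0 : ∀ e, gr (.inl e) = 0) (h1 : ∀ g, gr g ≤ 1)
    (hL : ∀ k : ℕ, ∀ y ∈ mono fun μ => ws gr μ = k,
      Dloc δ₀ 0 f ∅ y ∈ (mono fun μ => ws gr μ = k) ∧
        Dloc δ ω f ∅ y - Dloc δ₀ 0 f ∅ y ∈ mono fun μ => k < ws gr μ) (k : ℕ) (j₀ : J) (γ : Γ)
    (ha : Acy (Dloc δ₀ 0 f ∅) (fun p => ZZ Al c {j₀} ∅ γ p ⊓
      mono fun μ => has N μ ∨ k ≤ cnt Pp μ) (rel f ⊔ mono (has N))) :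
    Acy (Dloc δ ω f ∅) (fun p => ZZ Al c {j₀} ∅ γ p ⊓
      mono fun μ => has N μ ∨ k ≤ cnt Pp μ) (rel f ⊔ mono (has N)) := by
  intro p
  have e0 : ∀ m : (E ⊕ J) →₀ ℕ, ws gr (ex (∅ : Finset (O ⊕ J)) m) = 0 := fun m => by
    simp [ws, ex, h0]
  refine ex_of_graded (Dloc δ₀ 0 f ∅) (fun i => proj fun μ => ws gr μ = i)
    (Fintype.card (O ⊕ J) + 1) (fun x _ => sum_proj h0 h1 x ▸ zero_mem _)
    (fun x _ => ⟨_, sum_proj h0 h1 x ▸ zero_mem _⟩)
    (fun _ _ hx => ⟨proj_mem_of hx.1, proj_mem_of hx.2⟩)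
    (fun _ _ hx => ⟨proj_mem_of hx.1, proj_mem_of hx.2⟩) (fun i x hx => ?_) (fun i j x => ?_)
    (fun _ => stabZ h hN hP k j₀ γ p) (fun _ _ => kill_stab h hN) (fun x _ => ?_)
    (fun i j x _ => ?_) (fun i j hij x _ => ?_) (fun _ _ => kill_stab h₀ hN₀) (ha p)
  · obtain ⟨a, ha, b, hb, rfl⟩ := Submodule.mem_sup.1 hx
    rw [map_add]
    exact Submodule.add_mem_sup (proj_rel (A := univ)
      (fun j _ m _ μ _ => by rw [ws_add, ws_add, ws_single, e0, h0, add_zero, add_zero])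
      (mem_mono.2 fun _ _ _ _ _ => mem_univ _) ha) (proj_mem_of hb)
  · exact proj_of_eq (proj_mem x) i
  · rw [← Module.End.mul_apply, h.Dloc_sq]
    exact zero_mem _
  · exact TL.of_eq (zero_mem _) (sub_eq_zero.2 (proj_of_eq (hL j _ (proj_mem x)).1 i))
  · exact TL.of_eq (zero_mem _) (proj_of_lt (hL j _ (proj_mem x)).2 hij)

end Pool.Agent.MP_8be872_ag.H11
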