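import Pool.Agent.MP_8be872_ag.H63.SpecE
import Pool.Agent.MP_8be872_ag.H11.NegAcyA

/-! High powers of the ideal of generators of positive level are acyclic. -/

namespace Pool.Agent.MP_8be872_ag.H11

open Finset H38 H56 H63 MvPolynomial
open scoped Matrix

variable {Q : Quiv} {w v D : Fin Q.n → ℕ} {J : Type} [Fintype J] [DecidableEq J]

/-- Ghosts and entries of `α`. -/
def ca (lab : Bas Q D → Bas Q v × ℕ) (g : Ix Q w v D J ⊕ Ix Q w v D J) : Prop :=
  AlS lab g ∧ kind (fun k => k = kc ∨ k = ka) g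

theorem yc_mem (lab : Bas Q D → Bas Q v × ℕ) :
    YS lab (fun k p q => (gn (gg k p q) : OpQ Q w v D J)) kc ∈ (wA (ca lab)).matrix := by
  classical
  have b : ∀ k : Kd Q, k = kc ∨ k = ka → (fun p q => if shS lab k p q then
      (gn (gg k p q) : OpQ Q w v D J) else 0 : Matrix _ _ _) ∈ (wA (ca lab)).matrix := by
    intro k hk p q
    dsimp only
    split_ifs with e
    · refine gn_mem_words (sup_single.2 ?_)
      rcases hk with rfl | rfl
      exacts [⟨e, .inl rfl⟩, ⟨e, .inr rfl⟩]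
    · exact zero_mem (wA (ca lab))
  have a : (al0 (w := w) lab).map (algebraMap ℂ (OpQ Q w v D J)) ∈ (wA (ca lab)).matrix :=
    fun _ _ => algebraMap_mem (wA (ca lab)) _
  have a' : ((al0 (w := w) lab).map (algebraMap ℂ (OpQ Q w v D J)))ᵀ ∈ (wA (ca lab)).matrix :=
    fun _ _ => algebraMap_mem (wA (ca lab)) _
  unfold YS
  dsimp only
  rw [if_neg (by simp), if_pos rfl]
  exact sum_mem fun i _ => mul_mem (mul_mem (pow_mem a' i) (b _ (.inl rfl)))
    (pow_mem (add_mem a (b _ (.inr rfl))) i)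

theorem om_mem (lab : Bas Q D → Bas Q v × ℕ) (m : Bas Q D → ℤ) :
    omS (w := w) (J := J) lab m ∈ words (sup (ca lab)) :=
  neg_mem (Submodule.sum_mem _ fun _ _ => Submodule.smul_mem _ _ (yc_mem lab _ _))

theorem dc_mem (lab : Bas Q D → Bas Q v × ℕ) {g : Ix Q w v D J ⊕ Ix Q w v D J}
    (h : kind (· = kc) g) : dS lab g ∈ words (sup (ca lab)) ∧ cdG g = 1 := by
  classical
  rcases g with (⟨τ, p, q⟩ | j) | ⟨τ, p, q⟩ | j
  · exact absurd h (by simp [kind, ofM])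
  · exact h.elim
  · obtain rfl : τ = .inr true := Sum.inr_injective h
    refine ⟨?_, rfl⟩
    change (if _ then _ else _) ∈ _
    split_ifs
    · exact neg_mem (mul_mem (yc_mem lab) (yc_mem lab)) p q
    · exact zero_mem _
  · exact h.elim

variable {d : Bas Q v → ℕ} {lab : Bas Q D → Bas Q v × ℕ}

theorem gr_inl (e : Ix Q w v D J) : grC d lab (.inl e) = 0 :=
  if_neg fun h => by
    rcases e with ⟨τ, p, q⟩ | j
    · exact absurd h.2.1 (by simp [kind, ofM])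
    · exact h.1

theorem gr_le (g : Ix Q w v D J ⊕ Ix Q w v D J) : grC d lab g ≤ 1 := by
  unfold grC
  split_ifs <;> simp

theorem gr_ca (hw : ∀ p q : Nb Q w v D, shS lab ka p q → 0 < lvk d lab ka p q)
    {g : Ix Q w v D J ⊕ Ix Q w v D J} (h : ca lab g) (hl : lvG d lab g ≤ 0) : grC d lab g = 1 := by
  refine if_pos ⟨h.1, ?_, hl⟩
  rcases g with (⟨τ, p, q⟩ | j) | ⟨τ, p, q⟩ | j
  · rcases h.2 with e | e
    · exact e
    · obtain rfl : τ = .inr true := Sum.inl_injective e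
      exact absurd (hw p q h.1) (not_lt.2 hl)
  · exact h.1
  · rcases h.2 with e | e
    · exact e
    · exact absurd e (by simp)
  · exact h.1

theorem isN_bigK {g : Ix Q w v D J ⊕ Ix Q w v D J} (h : isN d lab g) (a : AlS lab g) :
    bigK d lab g := by
  refine ⟨a, ?_⟩
  rcases g with (⟨τ, p, q⟩ | j) | ⟨τ, p, q⟩ | j
  exacts [.inl h.1, h, .inl h.1, h]

theorem negAcy : SlFStmt → SlWStmt → NegEStmt → NegNStmt → NegAcyStmt := by
  intro hF hW hE hN Q w v D J _ _ σ d lab m P φ₀ f φ j₀ H k hk γ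
  obtain ⟨F1, -, F2, F3, -⟩ := hF Q w v D J σ d lab m H.isLab H.vert H.const
  obtain ⟨W1, W2, W3, ⟨l, W4⟩, -⟩ := hW Q w v D J σ d lab H.isLab H.vert
  have h := F1 φ f H.hom
  have key : ∀ μ : Ix Q w v D J ⊕ Ix Q w v D J → ℕ, sup (ca lab) μ → 0 < ws cdG μ →
      co 0 (ws (wt (xs σ d lab) φ) μ) ≤ 0 → 1 ≤ ws (grC d lab) μ := fun μ a b e => by
    rw [map_ws] at e
    obtain ⟨g, g1, g2⟩ := ex_nonpos b e
    exact one_le_ws g1 (gr_ca W3 (a g g1) (W1 φ g (a g g1).1 ▸ g2))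
  have hgr : ∀ g : Ix Q w v D J ⊕ Ix Q w v D J,
      dS lab g ∈ words fun μ => grC d lab g ≤ ws (grC d lab) μ := fun g => by
    by_cases e : AlS lab g ∧ kind (· = kc) g ∧ lvG d lab g ≤ 0
    · have a := dc_mem lab e.2.1
      refine words_le (fun μ u => le_trans (gr_le g) (key μ u.1 ?_ ?_))
        (words_and a.1 (words_and (F2 g) (h.dw g)))
      · rw [u.2.1, a.2]
        decide
      · rw [u.2.2.2.1, W1 φ g e.1]
        exact e.2.2
    · rw [show grC d lab g = 0 from if_neg e]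
      exact words_le (fun _ _ => Nat.zero_le _) (h.dw g)
  have hω : omS (w := w) (J := J) lab m ∈ words fun μ => 1 ≤ ws (grC d lab) μ := by
    refine words_le (fun μ u => key μ u.1 ?_ ?_) (words_and (om_mem lab m) (words_and F3 h.ow))
    · rw [u.2.1]
      decide
    · rw [u.2.2.2.1, map_zero]
  obtain ⟨δ₀, f₀, h₀, -, p0, lead, cl, hL⟩ :=
    h.grPart (grC d lab) (fun j => gr_inl _) (fun j => if_neg fun a => a.1) hgr hω
  obtain rfl : f₀ = f := funext fun j => by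
    have a := p0 j
    rw [proj_eq_self (pol_mem.2 fun m _ => by simp [ws, ex, gr_inl])] at a
    simpa [pol] using congrFun a ∅
  have G0 : Gr0 σ d lab f₀ φ j₀ δ₀ := ⟨h₀, lead, cl j₀ H.closed⟩
  have n1 : ∀ g : Ix Q w v D J ⊕ Ix Q w v D J, isN d lab g →
      AlS lab g ∧ dS lab g ∈ words (has (isN d lab)) := fun g a => ⟨W2 g a, by
    refine words_le (fun μ u => ?_) (h.dw g)
    have b := (W4 φ g (W2 g a)).1 a
    rw [← u.2.1, map_ws] at b
    obtain ⟨g', g1, g2⟩ := ex_neg b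
    exact ⟨g', of_not_not fun n => absurd ((W4 φ g' (u.1 g' g1)).2 n) (not_lt.2 g2.le), g1⟩⟩
  have n2 : ∀ g : Ix Q w v D J ⊕ Ix Q w v D J, posL d lab g → AlS lab g ∧
      dS lab g ∈ words fun μ => has (isN d lab) μ ∨ has (posL d lab) μ := fun g a => ⟨a.1, by
    refine words_le (fun μ u => ?_) (h.dw g)
    have b := a.2.2
    rw [← W1 φ g a.1, ← u.2.1, map_ws] at b
    obtain ⟨g', g1, g2⟩ := ex_pos b
    by_cases n : isN d lab g'
    · exact .inl ⟨g', n, g1⟩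
    · exact .inr ⟨g', ⟨u.1 g' g1, n, W1 φ g' (u.1 g' g1) ▸ g2⟩, g1⟩⟩
  have n3 : ∀ g, isN d lab g → AlS lab g ∧ δ₀ g ∈ words (has (isN d lab)) :=
    fun g a => ⟨W2 g a, words_le (fun _ u => u.1) (lead g _ (n1 g a).2).1⟩
  obtain ⟨E1, E2⟩ := hE Q w v D J σ d lab m P φ₀ f₀ φ j₀ δ₀ H G0
  exact acy_lead h h₀ n1 n2 n3 gr_inl gr_le (hL ∅) k j₀ γ (acy_two h₀ n3
    (fun g a => ⟨a.1, words_le (fun _ u => u.1) (lead g _ (n2 g a).2).1⟩)
    (fun g a => ⟨a.1, E1 g a⟩) (fun g a => isN_bigK a (W2 g a)) k j₀ γ (E2 k γ)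
    (hN Q w v D J σ d lab m P φ₀ f₀ φ j₀ δ₀ H G0 E1 k hk γ))

end Pool.Agent.MP_8be872_ag.H11
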